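import Pool.Agent.MP_77f003_co.H51.HBasic

/-!
Token moves on a family of far rays.
-/

namespace Pool.Agent.MP_77f003_co.H49

open SimpleGraph Filter Set

namespace Board

variable {V : Type} {G : SimpleGraph V}

theorem conn_of {S : Set V} {y : V} (h : ∀ z ∈ S, Lk G S z y) : Conn G S :=
  fun a ha b hb => (h a ha).trans (h b hb).symm

theorem adj_ev [Fact G.Connected] {ι : Type} (s : ℕ) (R : ι → ℕ → V) (x : V) (c d : ι) :
    ∀ᶠ t in atTop, ∀ m n, Lk G {z | t ≤ G.dist x z ∧ ∀ e, e ≠ c → e ≠ d →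
      ∀ k, s ≤ G.dist z (R e k)} (R c m) (R d n) → c ≠ d → (BG G s R).Adj c d := by
  by_cases h : c ≠ d → (BG G s R).Adj c d
  · exact Eventually.of_forall fun _ _ _ _ => h
  obtain ⟨h1, h2⟩ := Classical.not_imp.1 h
  have h3 := not_and.1 h2 h1
  push Not at h3
  obtain ⟨y, r, h3⟩ := h3
  filter_upwards [eventually_ge_atTop (r + G.dist x y)] with t ht m n l
  refine (h3 m n (l.mono fun z hz => ⟨?_, hz.2⟩)).elim
  have := tri (G := G) x y z
  have := hz.1
  omega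

/-- A deep link between two adjacent rays. -/
theorem link [Fact G.Connected] {ι : Type} {K : ℕ} {R : ι → ℕ → V} {a b : ι}
    (h : (BG G K R).Adj a b) {W : Set V} (hW : W.Finite) (N N' : ℕ) :
    ∃ m m', N ≤ m ∧ N' ≤ m' ∧ ∃ P : Set V, P.Finite ∧ R a m ∈ P ∧ (∀ z ∈ P, Lk G P z (R b m')) ∧
      Far G K W P ∧ ∀ c, c ≠ a → c ≠ b → Far G K P (range (R c)) := by
  obtain ⟨t, ⟨t1, t2⟩, t3⟩ := (((idx_of_far (G := G) (R a) (R a 0) N).and
    (idx_of_far (G := G) (R b) (R a 0) N')).and (far_out (G := G) hW (R a 0) K)).exists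
  obtain ⟨m, m', l⟩ := h.2 (R a 0) t
  obtain ⟨P, p1, p2, p3, p4⟩ := l.fin
  refine ⟨m, m', t1 _ l.left.1, t2 _ l.right.1, P, p1, p3, p4, t3.mono le_rfl fun z hz => (p2 hz).1,
    fun c h1 h2 z hz => ?_⟩
  rintro _ ⟨k, rfl⟩
  exact (p2 hz).2 c h1 h2 k

theorem far_br {K n : ℕ} {S Z : Set V} {w : ℕ → V} (h : Far G K S Z) (h' : Far G K S (range w)) :
    Far G K S (Br Z w n) := h.union' (h'.mono le_rfl (image_subset_range _ _))

/-- The tokens in `U` are moved inside `U`. -/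
structure Mv (G : SimpleGraph V) {ι κ : Type} (K : ℕ) (R : κ → ℕ → V) (U : Set κ)
    (f f' : ι → κ) : Prop where
  inj : Function.Injective f'
  off : ∀ i, f i ∉ U → f' i = f i
  on : ∀ i, f i ∈ U → f' i ∈ U
  mv : ∀ (X O : ι → Set V) (F : Set V), F.Finite →
    (∀ i, f i ∈ U → O i ⊆ F ∪ ⋃ c ∈ Uᶜ, range (R c)) →
    PQ G K X O (fun j => R (f j)) → PQ G K X O fun j => R (f' j)

variable {ι κ : Type} {K : ℕ} {R : κ → ℕ → V} {U : Set κ} {f f' f'' : ι → κ}

theorem Mv.pre (h : Mv G K R U f f') : f' ⁻¹' U = f ⁻¹' U :=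
  Set.ext fun i => ⟨fun k => by_contra fun e => e (show f i ∈ U from h.off i e ▸ (k : f' i ∈ U)), h.on i⟩

theorem Mv.trans (h : Mv G K R U f f') (h' : Mv G K R U f' f'') : Mv G K R U f f'' :=
  ⟨h'.inj, fun i k => (h'.off i (h.off i k ▸ k)).trans (h.off i k), fun i k => h'.on i (h.on i k),
    fun X O F hF hO p => h'.mv X O F hF (fun i k => hO i (h.pre.subset k)) (h.mv X O F hF hO p)⟩

variable [Fact G.Connected] [Finite ι] (hM : MoveSpec) (h1 : ∀ c, LR G (R c))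
  (h2 : ∀ c d, c ≠ d → Far G K (range (R c)) (range (R d)))
include hM h1 h2

theorem step {a b : κ} (hf : Function.Injective f) (ha : a ∈ range f) (hb : b ∉ range f)
    (e : a ∈ U ∧ b ∈ U ∧ (BG G K R).Adj a b) : ∃ f', Mv G K R U f f' ∧
      ∀ c, c ∈ range f' ↔ c = b ∨ c ∈ range f ∧ c ≠ a := by
  classical
  obtain ⟨i, rfl⟩ := ha
  refine ⟨Function.update f i b, ⟨fun j k h => ?_, fun j k => ?_, fun j k => ?_,
    fun X O F hF hO p => hM G K R f X O F i b h1 h2 hf e.2.2 hb hF ((hO i e.1).trans ?_) p⟩,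
    fun c => ⟨?_, ?_⟩⟩
  · by_cases hj : j = i <;> by_cases hk : k = i
    · rw [hj, hk]
    · rw [hj, Function.update_self, Function.update_of_ne hk] at h
      exact absurd ⟨k, h.symm⟩ hb
    · rw [hk, Function.update_self, Function.update_of_ne hj] at h
      exact absurd ⟨j, h⟩ hb
    · rw [Function.update_of_ne hj, Function.update_of_ne hk] at h
      exact hf h
  · exact Function.update_of_ne (by rintro rfl; exact k e.1) _ _
  · by_cases hj : j = i
    · rw [hj, Function.update_self]; exact e.2.1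
    · rwa [Function.update_of_ne hj]
  · exact union_subset_union_right _ (biUnion_subset_biUnion_left fun c hc =>
      ⟨fun h => hc (h ▸ e.1), fun h => hc (h ▸ e.2.1)⟩)
  · rintro ⟨j, rfl⟩
    by_cases hj : j = i
    · exact Or.inl (by rw [hj, Function.update_self])
    · rw [Function.update_of_ne hj]
      exact Or.inr ⟨⟨j, rfl⟩, hf.ne hj⟩
  · rintro (rfl | ⟨⟨j, rfl⟩, h⟩)
    · exact ⟨i, Function.update_self _ _ _⟩
    · exact ⟨j, Function.update_of_ne (by rintro rfl; exact h rfl) _ _⟩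

theorem shift {a b : κ} (h : Rch (BG G K R) U a b) : ∀ f : ι → κ, Function.Injective f →
    a ∈ range f → b ∉ range f → ∃ f', Mv G K R U f f' ∧
      ∀ c, c ∈ range f' ↔ c = b ∨ c ∈ range f ∧ c ≠ a := by
  induction h with
  | refl => exact fun f _ h h' => absurd h h'
  | @tail c b _ e ih =>
    intro f hf ha hb
    have cb : c ≠ b := e.2.2.ne
    by_cases hc : c ∈ range f
    · obtain ⟨f₁, s1, r1⟩ := step hM h1 h2 hf hc hb e
      by_cases ca : a = c
      · exact ⟨f₁, s1, ca ▸ r1⟩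
      obtain ⟨f₂, s2, r2⟩ := ih f₁ s1.inj ((r1 a).2 (Or.inr ⟨ha, ca⟩)) (by simp [r1, cb])
      refine ⟨f₂, s1.trans s2, fun d => ?_⟩
      rw [r2, r1]
      have : b ≠ a := fun k => hb (k ▸ ha)
      grind
    · obtain ⟨f₁, s1, r1⟩ := ih f hf ha hc
      obtain ⟨f₂, s2, r2⟩ := step hM h1 h2 s1.inj ((r1 c).2 (Or.inl rfl))
        (fun k => ((r1 b).1 k).elim cb.symm fun k => hb k.1) e
      refine ⟨f₂, s1.trans s2, fun d => ?_⟩
      rw [r2, r1]
      grind

end Board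

open Board

theorem reachSpec : ReachSpec := by
  intro V ι G _ _ s R x hs hR
  obtain ⟨t, ht⟩ := (eventually_all.2 fun c => eventually_all.2 fun d =>
    adj_ev (G := G) s R x c d).exists
  refine ⟨t + s, fun U a b m n ha hb ⟨p, hp⟩ => ?_⟩
  have far : ∀ {c e k l}, e ≠ c → 2 * s ≤ G.dist (R c k) (R e l) := fun h =>
    hR _ _ h.symm _ ⟨_, rfl⟩ _ ⟨_, rfl⟩
  have key : ∀ {v w : V} (q : G.Walk v w), (∀ z ∈ q.support, t + s ≤ G.dist x z ∧
      ∀ c ∉ U, ∀ k, s ≤ G.dist z (R c k)) → (∃ c ∈ U, Rch (BG G s R) U a c ∧ ∃ k,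
        Lk G {z | t ≤ G.dist x z ∧ ∀ e, e ≠ c → ∀ l, s ≤ G.dist z (R e l)} (R c k) v) →
      ∃ c ∈ U, Rch (BG G s R) U a c ∧ ∃ k,
        Lk G {z | t ≤ G.dist x z ∧ ∀ e, e ≠ c → ∀ l, s ≤ G.dist z (R e l)} (R c k) w := by
    intro v w q
    induction q with
    | nil => exact fun _ h => h
    | @cons u v w e q ih =>
      rintro hq ⟨c, c1, c2, k, l⟩
      refine ih (fun z hz => hq z (by simp [hz])) ?_
      obtain ⟨v1, v2⟩ := hq v (by simp)
      by_cases h : ∀ e, e ≠ c → ∀ l, s ≤ G.dist v (R e l)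
      · exact ⟨c, c1, c2, k, l.trans (Lk.adj e l.right ⟨by omega, h⟩)⟩
      push Not at h
      obtain ⟨d, d1, j, d2⟩ := h
      have d3 : d ∈ U := by_contra fun h => d2.not_ge (v2 d h j)
      have l' : Lk G {z | t ≤ G.dist x z ∧ ∀ e, e ≠ d → ∀ l, s ≤ G.dist z (R e l)} v (R d j) :=
        Lk.geo fun z hz => ⟨by
          have := tri (G := G) x z v
          rw [dcomm z v] at this
          omega, fun e h i => by
          have := tri (G := G) (R d j) z (R e i)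
          have := far (k := j) (l := i) h
          rw [dcomm z] at hz
          omega⟩
      have m1 := l.mono (T := {z | t ≤ G.dist x z ∧ ∀ e, e ≠ c → e ≠ d →
        ∀ l, s ≤ G.dist z (R e l)}) fun z hz => ⟨hz.1, fun e h _ => hz.2 e h⟩
      have m2 := l'.mono (T := {z | t ≤ G.dist x z ∧ ∀ e, e ≠ c → e ≠ d →
        ∀ l, s ≤ G.dist z (R e l)}) fun z hz => ⟨hz.1, fun e _ h => hz.2 e h⟩
      exact ⟨d, d3, c2.tail ⟨c1, d3, ht c d k j
        ((m1.trans (Lk.adj e m1.right m2.left)).trans m2) d1.symm⟩, j, l'.symm⟩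
  obtain ⟨c, -, c2, k, l⟩ := key p hp ⟨a, ha, .refl, m, Lk.refl
    ⟨le_of_add_le_left (hp _ p.start_mem_support).1, fun e h l => (by omega : s ≤ 2 * s).trans (far h)⟩⟩
  by_cases h : b = c
  · exact h ▸ c2
  · have := l.right.2 b h n
    rw [SimpleGraph.dist_self] at this
    omega

theorem moveSpec : MoveSpec := by
  intro V ι κ G _ _ _ K R f X O F i b h1 h2 hf e hb hF hO ⟨Z, n, p1, p2⟩
  have hW := hF.union (finite_iUnion fun j => (p1 j).1)
  obtain ⟨N, hN⟩ := eventually_atTop.1 ((h1 b).tail hW K)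
  obtain ⟨m, m', l1, l2, P, q1, q2, q3, q4, q5⟩ := link e hW (n i) N
  have Q1 : Far G K (F ∪ ⋃ j, Z j) (Br P (R b) m') := q4.union' (hN m' l2)
  have Q2 : ∀ c, c ≠ f i → c ≠ b → Far G K (range (R c)) (Br P (R b) m') := fun c k k' =>
    far_br (q5 c k k').symm (h2 c b k')
  set Y := Z i ∪ R (f i) '' Icc (n i) m ∪ P with hY
  have sub : Br Y (R b) m' ⊆ Br (Z i) (R (f i)) (n i) ∪ Br P (R b) m' := by
    rintro z (((hz | ⟨k, hk, rfl⟩) | hz) | hz)
    exacts [Or.inl (Or.inl hz), Or.inl (tail_mem_Br hk.1), Or.inr (Or.inl hz), Or.inr (Or.inr hz)]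
  have Q3 : ∀ j, j ≠ i → Far G K (Br (Z j) (R (f j)) (n j)) (Br Y (R b) m') := fun j hj =>
    ((p2 j i hj).union' (far_br (Q1.mono (subset_union_of_subset_right (subset_iUnion Z j) _)
      le_rfl).symm (Q2 _ (hf.ne hj) fun k => hb ⟨j, k⟩).symm).symm).mono le_rfl sub
  have lk : ∀ k, n i ≤ k → k ≤ m → Lk G Y (R (f i) k) (R b m') := fun k k1 k2 =>
    ((h1 _).lk fun j _ _ => Or.inl (Or.inr ⟨j, ⟨by omega, by omega⟩, rfl⟩)).trans
      ((q3 _ q2).mono subset_union_right)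
  refine ⟨Function.update Z i Y, Function.update n i m', fun j => ?_, fun j k hjk => ?_⟩
  · by_cases hj : j = i
    · subst hj
      simp only [Function.update_self]
      obtain ⟨a1, a2, a3, a4, a5⟩ := p1 j
      refine ⟨(a1.union ((finite_Icc _ _).image _)).union q1,
        a2.trans (subset_union_left.trans subset_union_left), Or.inr (q3 _ q2).right,
        conn_of (y := R b m') ?_, (a5.union' (fun z hz => ?_)).mono le_rfl sub⟩
      · rintro z ((hz | ⟨k, hk, rfl⟩) | hz)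
        exacts [((a4 z hz _ a3).mono (subset_union_left.trans subset_union_left)).trans
          (lk _ le_rfl l1), lk k hk.1 hk.2, (q3 z hz).mono subset_union_right]
      · rcases hO hz with k | k
        · exact Q1 z (Or.inl k)
        · obtain ⟨c, hc, k⟩ := mem_iUnion₂.1 k
          exact Q2 c hc.1 hc.2 z k
    · simpa only [Function.update_of_ne hj] using p1 j
  · by_cases hj : j = i <;> by_cases hk : k = i
    · exact absurd (hj.trans hk.symm) hjk
    · subst hj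
      simpa only [Function.update_self, Function.update_of_ne hk] using (Q3 k hk).symm
    · subst hk
      simpa only [Function.update_self, Function.update_of_ne hj] using Q3 j hj
    · simpa only [Function.update_of_ne hj, Function.update_of_ne hk] using p2 j k hjk

theorem edgeSpec : EdgeSpec := by
  intro V ι G _ _ K ρ X O F i j h1 e hF ⟨Z, n, p1, p2⟩
  obtain ⟨m, m', l1, l2, P, q1, q2, q3, q4, q5⟩ :=
    link e (hF.union (finite_iUnion fun j => (p1 j).1)) (n i) (n j)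
  have sub : ∀ k, Br (Z k ∪ ρ k '' Icc (n k) (max m m')) (ρ k) (n k) ⊆ Br (Z k) (ρ k) (n k) := by
    rintro k z ((hz | ⟨l, hl, rfl⟩) | hz)
    exacts [Or.inl hz, tail_mem_Br hl.1, Or.inr hz]
  refine ⟨P, ρ i m, ρ j m', q1, conn_of q3, q2, (q3 _ q2).right, q4.mono subset_union_left le_rfl,
    fun k => Z k ∪ ρ k '' Icc (n k) (max m m'), n, fun k => ?_,
    fun k l h => (p2 k l h).mono (sub k) (sub l)⟩
  obtain ⟨a1, a2, a3, a4, a5⟩ := p1 k
  refine ⟨a1.union ((finite_Icc _ _).image _), ?_, Or.inl a3, conn_of (y := ρ k (n k)) ?_,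
    (a5.union fun z hz => ?_).mono le_rfl (sub k)⟩
  · rintro z (hz | ⟨rfl, rfl⟩ | ⟨rfl, rfl⟩)
    exacts [Or.inl (a2 hz), Or.inr ⟨m, ⟨l1, le_max_left _ _⟩, rfl⟩,
      Or.inr ⟨m', ⟨l2, le_max_right _ _⟩, rfl⟩]
  · rintro z (hz | ⟨l, ⟨l3, l4⟩, rfl⟩)
    exacts [(a4 z hz _ a3).mono subset_union_left,
      (h1 k).lk fun r _ _ => Or.inr ⟨r, ⟨by omega, by omega⟩, rfl⟩]
  · exact far_br (q4.mono (subset_union_of_subset_right (subset_iUnion Z k) _) le_rfl).symm
      (q5 k hz.1 hz.2.1) z hz.2.2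

theorem slideSpec (hM : MoveSpec) : SlideSpec := by
  intro V ι κ G _ _ _ K R f U T h1 h2 hf hU hT hc
  suffices ∃ f', Mv G K R U f f' ∧ f' '' (f ⁻¹' U) = T from
    let ⟨f', s, e⟩ := this; ⟨f', s.inj, s.off, e, s.mv⟩
  generalize hn : (T \ range f).ncard = n
  induction n using Nat.strong_induction_on generalizing f with
  | _ n ih =>
    rw [← ncard_image_of_injective _ hf] at hc
    by_cases h : T ⊆ range f
    · refine ⟨f, ⟨hf, fun _ _ => rfl, fun _ h => h, fun _ _ _ _ _ h => h⟩,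
        (eq_of_subset_of_ncard_le (fun c k => ?_) hc.ge).symm⟩
      obtain ⟨i, rfl⟩ := h k
      exact ⟨i, hT k, rfl⟩
    obtain ⟨b, b1, b2⟩ := not_subset.1 h
    obtain ⟨_, ⟨i, a1, rfl⟩, a2⟩ : ∃ a ∈ f '' (f ⁻¹' U), a ∉ T := by
      by_contra k
      push Not at k
      exact b2 (image_subset_range _ _ ((eq_of_subset_of_ncard_le k hc.le).symm ▸ b1))
    obtain ⟨f₁, s1, r1⟩ := shift hM h1 h2 (hU _ a1 b (hT b1)) f hf ⟨i, rfl⟩ b2
    obtain ⟨f₂, s2, r2⟩ := ih _ (hn ▸ ncard_lt_ncard ⟨fun c k => ⟨k.1, fun k' => k.2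
      ((r1 c).2 (Or.inr ⟨k', fun e => a2 (e ▸ k.1)⟩))⟩, fun k => (k ⟨b1, b2⟩).2
        ((r1 b).2 (Or.inl rfl))⟩) f₁ s1.inj (by rw [s1.pre, hc, ncard_image_of_injective _ hf]) rfl
    exact ⟨f₂, s1.trans s2, s1.pre ▸ r2⟩

end Pool.Agent.MP_77f003_co.H49
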