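import Pool.Agent.MP_77f003_co.H51.Track

/-!
If the limit cut stays near a unimodular level, its stabiliser has an infinite orbit: the
dimensions of the spaces of cycles stabilise, while a closed walk crosses one track only once.
-/

namespace Pool.Agent.MP_77f003_co.H49

open SimpleGraph MulAction Filter

variable {V : Type} {G : SimpleGraph V}

/-- `B` agrees on each finite set with a member of `N`. -/
def GncCl (N : Set (Set V)) (B : Set V) : Prop :=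
  ∀ F : Set V, F.Finite → ∃ B' ∈ N, ∀ x ∈ F, (x ∈ B ↔ x ∈ B')

theorem GncCl.nest {N : Set (Set V)} (hN : NFam G N) {B C : Set V} (hB : GncCl N B)
    (hC : GncCl N C) : B ⊆ C ∨ B ⊆ Cᶜ ∨ Bᶜ ⊆ C ∨ Bᶜ ⊆ Cᶜ := by
  by_contra hn
  simp only [not_or, Set.not_subset, Set.mem_compl_iff, not_not] at hn
  obtain ⟨⟨a, a1, a2⟩, ⟨b, b1, b2⟩, ⟨c, c1, c2⟩, ⟨d, d1, d2⟩⟩ := hn
  obtain ⟨B', h1, h2⟩ := hB {a, b, c, d} (Set.toFinite _)
  obtain ⟨C', k1, k2⟩ := hC {a, b, c, d} (Set.toFinite _)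
  rcases hN.nest B' h1 C' k1 with e | e | e | e
  · exact a2 ((k2 a (by simp)).2 (e ((h2 a (by simp)).1 a1)))
  · exact e ((h2 b (by simp)).1 b1) ((k2 b (by simp)).1 b2)
  · exact c2 ((k2 c (by simp)).2 (e fun k => c1 ((h2 c (by simp)).2 k)))
  · exact e (fun k => d1 ((h2 d (by simp)).2 k)) ((k2 d (by simp)).1 d2)

theorem gnc_loc {L : ℕ} {B : Set V} {e q : V × V} (hq : q ∈ trk G L B e) :
    ∃ F : Set V, F.Finite ∧ ∀ B' : Set V, (∀ x ∈ F, (x ∈ B ↔ x ∈ B')) → q ∈ trk G L B' e := by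
  induction hq with
  | refl => exact ⟨∅, Set.finite_empty, fun _ _ => scatter_self _ _⟩
  | @tail a b _ k ih =>
    obtain ⟨F, h1, h2⟩ := ih
    refine ⟨F ∪ {a.1, a.2, b.1, b.2}, h1.union (Set.toFinite _), fun B' h => ?_⟩
    have t : ∀ p : V × V, p.1 ∈ ({a.1, a.2, b.1, b.2} : Set V) →
        p.2 ∈ ({a.1, a.2, b.1, b.2} : Set V) → p ∈ cb G L B → p ∈ cb G L B' := fun p p1 p2 hp =>
      ⟨(h _ (Or.inr p1)).1 hp.1, fun k => hp.2.1 ((h _ (Or.inr p2)).2 k), hp.2.2⟩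
    exact Relation.ReflTransGen.tail (h2 B' fun x hx => h x (Or.inl hx))
      ⟨t a (by simp) (by simp) k.1, t b (by simp) (by simp) k.2.1, k.2.2⟩

theorem GncCl.bound {N : Set (Set V)} {B : Set V} (hB : GncCl N B) {L s : ℕ}
    (h : ∀ B ∈ N, ∀ e ∈ cb G L B, (trk G L B e).encard ≤ s) {e : V × V} (he : e ∈ cb G L B) :
    (trk G L B e).encard ≤ s := by
  by_contra hn
  obtain ⟨T, h1, h2⟩ := Set.exists_subset_encard_eq (k := (s + 1 : ℕ))
    (by push_cast; exact Order.add_one_le_of_lt (not_le.1 hn) : ((s + 1 : ℕ) : ℕ∞) ≤ _)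
  have hT : T.Finite := Set.finite_of_encard_eq_coe h2
  choose! F f1 f2 using fun q (hq : q ∈ trk G L B e) => gnc_loc hq
  obtain ⟨B', b1, b2⟩ := hB ((⋃ q ∈ T, F q) ∪ {e.1, e.2})
    ((hT.biUnion fun q hq => f1 q (h1 hq)).union (Set.toFinite _))
  have k := h B' b1 e ⟨(b2 _ (by simp)).1 he.1, fun k => he.2.1 ((b2 _ (by simp)).2 k), he.2.2⟩
  have k' : T ⊆ trk G L B' e := fun q hq =>
    f2 q (h1 hq) B' fun x hx => b2 x (Or.inl (Set.mem_biUnion hq hx))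
  have := (Set.encard_le_encard k').trans k
  rw [h2] at this
  exact absurd (by exact_mod_cast this) (Nat.not_succ_le_self s)

theorem Lim.gncIdx {N : Set (Set V)} {u v : V} {A : ℕ → Set V} (h : Lim G N u v A) {F : Set V}
    (hF : F.Finite) : ∃ j, ∀ x ∈ F, x ∈ ⋃ j, A j → x ∈ A j := by
  refine (hF.eventually_all.2 fun x _ => ?_ : ∀ᶠ j in atTop, _).exists
  by_cases hx : x ∈ ⋃ j, A j
  · obtain ⟨i, hi⟩ := Set.mem_iUnion.1 hx
    filter_upwards [eventually_ge_atTop i] with j hj _ using h.mono.monotone hj hi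
  · exact Eventually.of_forall fun j k => absurd k hx

theorem Lim.gncInf {N : Set (Set V)} {u v : V} {A : ℕ → Set V} (h : Lim G N u v A) :
    (cb G 1 (⋃ j, A j)).Infinite := by
  intro hf
  obtain ⟨j, hj⟩ := h.gncIdx (hf.image Prod.fst)
  obtain ⟨w, w1, w2⟩ := Set.exists_of_ssubset (h.mono (Nat.lt_succ_self j))
  obtain ⟨p, p1, -, p2⟩ := ((h.eff _ (h.mem j).1).2.2 w w2 v (h.mem j).2.2).cross
    (Set.mem_iUnion.2 ⟨_, w1⟩) h.notMem
  exact p2.right.1 (hj _ ⟨p, p1, rfl⟩ p1.1)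

theorem gnc_supp {E : Set G.Dart} {σ : Set (V × V)} (h : σ.Finite) (c : E → ℝ) :
    (Function.support fun d : E => sg G σ d.1 * c d).Finite := by
  have i1 : Function.Injective fun d : E => d.1.toProd :=
    Dart.toProd_injective.comp Subtype.val_injective
  refine ((h.preimage i1.injOn).union
    (h.preimage (Prod.swap_injective.comp i1).injOn)).subset fun d hd => ?_
  by_contra k
  exact hd (by simp [sg, show d.1.toProd ∉ σ from fun t => k (Or.inl t),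
    show d.1.toProd.swap ∉ σ from fun t => k (Or.inr t)])

theorem gnc_split {σ τ : Set (V × V)} (h : τ ⊆ σ) (d : G.Dart) :
    sg G σ d = sg G (σ \ τ) d + sg G τ d := by
  have k : ∀ a (_ : Decidable (a ∈ σ)) (_ : Decidable (a ∈ σ \ τ)) (_ : Decidable (a ∈ τ)),
      (if a ∈ σ then 1 else 0 : ℝ) =
        (if a ∈ σ \ τ then 1 else 0) + if a ∈ τ then 1 else 0 := fun a _ _ _ => by
    by_cases k : a ∈ τ
    · rw [if_pos k, if_pos (h k), if_neg fun t : a ∈ σ \ τ => t.2 k, zero_add]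
    · rw [if_neg k, add_zero]
      exact if_congr ⟨fun t => ⟨t, k⟩, fun t => t.1⟩ rfl rfl
  unfold sg
  rw [k d.toProd, k d.toProd.swap]
  ring

theorem gnc_congr {σ τ : Set (V × V)} {d : G.Dart} (h : ∀ p : V × V, G.Adj p.1 p.2 →
    (p ∈ σ ↔ p ∈ τ)) : sg G σ d = sg G τ d := by
  unfold sg
  rw [propext (h _ d.adj), propext (h d.toProd.swap d.adj.symm)]

theorem gnc_sat {E : Set G.Dart} {L : ℕ} {B : Set V} {c : E → ℝ}
    (hc : ∀ e ∈ cb G L B, ∑ᶠ d : E, sg G (trk G L B e) d.1 * c d = 0) {σ : Set (V × V)}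
    (h : σ.Finite) (h1 : σ ⊆ cb G L B) (h2 : ∀ p ∈ σ, trk G L B p ⊆ σ) :
    ∑ᶠ d : E, sg G σ d.1 * c d = 0 := by
  induction hn : σ.ncard using Nat.strong_induction_on generalizing σ with
  | _ n ih =>
    rcases σ.eq_empty_or_nonempty with rfl | ⟨p, hp⟩
    · simp [sg]
    have e1 := ih (σ := σ \ trk G L B p) _ (hn ▸ Set.ncard_lt_ncard (s := σ \ trk G L B p)
      ⟨Set.sdiff_subset, fun k => (k hp).2 (scatter_self _ _)⟩ h) (h.subset Set.sdiff_subset)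
      (Set.sdiff_subset.trans h1) (fun q hq r hr => ⟨h2 q hq.1 hr, fun k =>
        hq.2 (Relation.ReflTransGen.trans k (scatter_symm hr))⟩) rfl
    have e2 := finsum_add_distrib (gnc_supp (h.subset Set.sdiff_subset : (σ \ trk G L B p).Finite) c)
      (gnc_supp (h.subset (h2 p hp)) c)
    rw [e1, hc p (h1 hp), add_zero] at e2
    refine Eq.trans (finsum_congr fun d => ?_) e2
    rw [← add_mul, gnc_split (h2 p hp)]

theorem gnc_mono {L L' : ℕ} (hL : L ≤ L') {B : Set V} {p q : V × V} (h : q ∈ trk G L B p) :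
    q ∈ trk G L' B p := by
  have t : cb G L B ⊆ cb G L' B := fun _ k => ⟨k.1, k.2.1, k.2.2.trans hL⟩
  induction h with
  | refl => exact scatter_self _ _
  | tail _ k ih =>
    exact Relation.ReflTransGen.tail ih ⟨t k.1, t k.2.1,
      k.2.2.imp (fun k => ⟨k.1, k.2.trans hL⟩) fun k => ⟨k.1, k.2.trans hL⟩⟩

theorem gnc_up {E : Set G.Dart} {L L' : ℕ} (h0 : 1 ≤ L) (hL : L ≤ L') {B : Set V} {c : E → ℝ}
    (hc : ∀ e ∈ cb G L B, ∑ᶠ d : E, sg G (trk G L B e) d.1 * c d = 0) {e : V × V}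
    (he : e ∈ cb G L' B) (h : (trk G L' B e).Finite) :
    ∑ᶠ d : E, sg G (trk G L' B e) d.1 * c d = 0 := by
  refine Eq.trans (finsum_congr fun d => ?_) (gnc_sat hc (σ := trk G L' B e ∩ cb G L B)
    (h.subset Set.inter_subset_left) Set.inter_subset_right fun p hp q hq =>
      ⟨Relation.ReflTransGen.trans hp.1 (gnc_mono hL hq), scatter_sub hp.2 hq⟩)
  have k : ∀ p : V × V, G.Adj p.1 p.2 → (p ∈ trk G L' B e ∩ cb G L B ↔ p ∈ trk G L' B e) :=
    fun p hp => ⟨fun k => k.1, fun k => ⟨k, (scatter_sub he k).1, (scatter_sub he k).2.1,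
      (dist_adj hp).le.trans h0⟩⟩
  rw [gnc_congr k]

theorem gnc_list (E : Set G.Dart) (l : List G.Dart) : ∃ c : E → ℝ, (Function.support c).Finite ∧
    ∀ f : G.Dart → ℝ, (∀ d, d ∉ E → f d = 0) → ∑ᶠ d : E, f d.1 * c d = (l.map f).sum := by
  classical
  induction l with
  | nil => exact ⟨0, by simp, fun f _ => by simp⟩
  | cons a l ih =>
    obtain ⟨c, h1, h2⟩ := ih
    by_cases ha : a ∈ E
    · have s1 : (Function.support fun d : E => if d = ⟨a, ha⟩ then (1 : ℝ) else 0).Finite :=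
        (Set.finite_singleton (⟨a, ha⟩ : E)).subset fun d hd => by
          by_contra k
          exact hd (if_neg k)
      refine ⟨fun d => (if d = ⟨a, ha⟩ then 1 else 0) + c d,
        (s1.union h1).subset (Function.support_add _ _), fun f hf => ?_⟩
      simp only [mul_add]
      rw [finsum_add_distrib (s1.subset fun d hd => right_ne_zero_of_mul hd)
        (h1.subset fun d hd => right_ne_zero_of_mul hd), h2 f hf,
        finsum_eq_single _ (⟨a, ha⟩ : E) fun d hd => by simp [hd]]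
      simp
    · exact ⟨c, h1, fun f hf => by rw [h2 f hf, List.map_cons, List.sum_cons, hf a ha, zero_add]⟩

open Classical in
theorem gnc_walk {L : ℕ} {M : Set (Set V)} {τ : Set (V × V)} {B : Set V} (h : IsT G L M τ B)
    {a b : V} (W : G.Walk a b) (hW : W.length ≤ L) : (W.darts.map (sg G τ)).sum =
      (if (a, b) ∈ τ then 1 else 0) - if (b, a) ∈ τ then 1 else 0 := by
  induction W with
  | nil => simp
  | @cons a a' b k W ih =>
    have h3 := (dist_le (Walk.cons k W)).trans hW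
    rw [Walk.length_cons] at hW
    rw [Walk.darts_cons, List.map_cons, List.sum_cons, ih (by omega)]
    exact h.cocycle ((dist_adj k).le.trans (by omega)) ((dist_le W).trans (by omega)) h3

theorem gnc_zero {τ : Set (V × V)} {S : Set V} (h : ∀ p ∈ τ, p.1 ∈ S → p.2 ∉ S) {a b : V}
    (W : G.Walk a b) (hW : ∀ z ∈ W.support, z ∈ S) : (W.darts.map (sg G τ)).sum = 0 := by
  refine List.sum_eq_zero fun r hr => ?_
  obtain ⟨d, hd, rfl⟩ := List.mem_map.1 hr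
  have h1 := hW _ (W.dart_fst_mem_support_of_mem_darts hd)
  have h2 := hW _ (W.dart_snd_mem_support_of_mem_darts hd)
  simp [sg, show d.toProd ∉ τ from fun k => h _ k h1 h2,
    show d.toProd.swap ∉ τ from fun k => h _ k h2 h1]

theorem gnc_pwo : (AddSubmonoid.closure
    {r : ℝ | r = 1 / 2 ∨ ∃ k : ℕ, 3 ≤ k ∧ r = 1 / 2 - 1 / k} : Set ℝ).IsWF := by
  refine (Set.IsPWO.addSubmonoid_closure ?_ ?_).isWF
  · rintro _ (rfl | ⟨k, hk, rfl⟩)
    · norm_num
    · have : (3 : ℝ) ≤ k := by exact_mod_cast hk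
      have := one_div_le_one_div_of_le (by norm_num : (0 : ℝ) < 2) (by linarith : (2 : ℝ) ≤ k)
      linarith
  · have m : Monotone fun n : ℕ => (1 / 2 - 1 / ((n + 3 : ℕ) : ℝ) : ℝ) := fun a b hab =>
      sub_le_sub_left (one_div_le_one_div_of_le (by positivity) (by exact_mod_cast by omega)) _
    refine ((Set.isPWO_singleton (1 / 2 : ℝ)).union
      ((Set.isPWO_of_wellQuasiOrderedLE Set.univ).image_of_monotone m)).mono ?_
    rintro _ (rfl | ⟨k, hk, rfl⟩)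
    · exact Or.inl rfl
    · exact Or.inr ⟨k - 3, trivial, by simp only [Nat.sub_add_cancel hk]⟩

theorem gNcSpec (h1 : ScatterSpec) (h2 : GTrackSpec) (h3 : DimSpec) : GNcSpec := by
  classical
  intro V G _ _ Γ o D ht hT N u v A h hnear hP
  set U := ⋃ j, A j with hU
  let M : Set (Set V) := {B | ∃ φ ∈ Γ, B = φ ⁻¹' U ∨ B = (φ ⁻¹' U)ᶜ}
  have cl : ∀ B ∈ M, GncCl N B := by
    rintro B ⟨φ, -, k⟩ F hF
    obtain ⟨j, hj⟩ := h.gncIdx (hF.image φ)
    have t : ∀ x ∈ F, (x ∈ φ ⁻¹' U ↔ x ∈ φ ⁻¹' A j) := fun x hx =>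
      ⟨hj _ ⟨x, hx, rfl⟩, fun k => Set.mem_iUnion.2 ⟨j, k⟩⟩
    have t' := h.fam.inv _ (h.mem j).1 φ
    rcases k with rfl | rfl
    exacts [⟨_, t', t⟩, ⟨_, h.fam.compl _ t', fun x hx => not_congr (t x hx)⟩]
  have hM : GFam G Γ M :=
    { compl := by
        rintro _ ⟨φ, k, rfl | rfl⟩
        exacts [⟨φ, k, Or.inr rfl⟩, ⟨φ, k, Or.inl (compl_compl _)⟩]
      nest := fun B hB C hC => (cl B hB).nest h.fam (cl C hC)
      inv := by
        rintro _ ⟨φ, k, rfl | rfl⟩ ψ k'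
        exacts [⟨φ * ψ, mul_mem k k', Or.inl rfl⟩, ⟨φ * ψ, mul_mem k k', Or.inr rfl⟩] }
  have nr : ∀ B ∈ M, ∀ p ∈ cb G 1 B, Near G Γ o D p.1 := by
    have t : ∀ φ ∈ Γ, ∀ x, Near G Γ o D (φ x) → Near G Γ o D x := fun φ k x ⟨ψ, k1, k2⟩ =>
      ⟨φ⁻¹ * ψ, mul_mem (inv_mem k) k1, by rw [← dist_iso φ]; simpa using k2⟩
    rintro _ ⟨φ, k, rfl | rfl⟩ p hp
    · exact t φ k _ (hnear (φ p.1, φ p.2) ⟨hp.1, hp.2.1, (dist_iso φ _ _).trans_le hp.2.2⟩).1
    · exact t φ k _ (hnear (φ p.2, φ p.1) ⟨not_not.1 hp.2.1, hp.1,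
        (dist_iso φ _ _).trans_le (dcomm (G := G) _ _ ▸ hp.2.2)⟩).2
  have bd : ∀ L, ∃ s : ℕ, ∀ B ∈ M, ∀ e ∈ cb G L B, (trk G L B e).encard ≤ s := fun L =>
    (h1 G N ht h.fam (fun B hB => h.fin hB) L).imp fun s hs B hB e he => (cl B hB).bound hs he
  have fn : ∀ L, ∀ B ∈ M, ∀ e ∈ cb G L B, (trk G L B e).Finite := fun L B hB e he =>
    let ⟨_, hs⟩ := bd L
    Set.finite_of_encard_le_coe (hs B hB e he)
  obtain ⟨m, m0, hm⟩ := h2 G Γ (stab U) M o u v D hT hM hP (fun φ _ k k' => (h.pair k k' 0).1)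
    (by
      rintro _ ⟨ψ, k, t⟩
      refine ⟨ψ⁻¹, inv_mem k, fun φ _ k' x => ?_⟩
      have k'' : φ ∈ (stab (ψ ⁻¹' U) : Subgroup (G ≃g G)) := by
        rcases t with rfl | rfl
        exacts [k', stab_compl k']
      simpa using k'' (ψ⁻¹ x)) nr
  have gs : GS Γ fun d : ND G Γ o D => {w : orbit Γ o | G.dist w d.1.fst ≤ D} :=
    { fin := fun d => trBall o _ D
      ne := fun d => let ⟨φ, k, k'⟩ := d.2; ⟨⟨φ o, ⟨φ, k⟩, rfl⟩, k'⟩
      eqv := fun g d w k => (dist_iso g.1 _ _).trans_le k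
      lf := fun w => (((finite_ball (G := G) w D).prod (finite_ball (G := G) w (D + 1))).preimage
        (f := fun d : ND G Γ o D => d.1.toProd)
        (Dart.toProd_injective.comp Subtype.val_injective).injOn).subset fun d hd =>
          ⟨hd, (tri _ d.1.fst _).trans (add_le_add hd (dist_adj d.1.adj).le)⟩ }
  obtain ⟨kd, -, d1, d2⟩ := h3 (bp Γ o) _ hT gs
  let K : ℕ → Set (ND G Γ o D → ℝ) := fun L => {c | L2 c ∧ ∀ B ∈ M, ∀ e ∈ cb G L B,
    ∑ᶠ d : ND G Γ o D, sg G (trk G L B e) d.1 * c d = 0}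
  have dat : ∀ L, 1 ≤ L → ∃ (X : Type) (_ : MulAction Γ X) (t : X → ND G Γ o D → ℝ), Mat t ∧
      Inv Γ t ∧ Ker t = K L ∧ ∃ r ∈ AddSubmonoid.closure
        {r : ℝ | r = 1 / 2 ∨ ∃ k : ℕ, 3 ≤ k ∧ r = 1 / 2 - 1 / k}, kd (K L) =
        wsum (fun d : ND G Γ o D => {w : orbit Γ o | G.dist w d.1.fst ≤ D}) (bp Γ o) 1 - m * r := by
    intro L hL
    obtain ⟨s, hs⟩ := bd L
    obtain ⟨X, R, _, _, sX, sR, t, D', a1, a2, a3, a4, a5, a6, a7, a8, a9, p, q, b1, b2⟩ :=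
      hm L s hL hs
    have e : Ker t = K L := Set.ext fun c => and_congr_right fun _ => ⟨fun k B hB e he => by
      obtain ⟨x, hx⟩ : (fun d : ND G Γ o D => sg G (trk G L B e) d.1) ∈ Set.range t :=
        a9 ▸ ⟨B, hB, e, he, rfl⟩
      simpa only [app, hx] using k x, fun k x => by
      obtain ⟨B, hB, e, he, hx⟩ := a9 ▸ Set.mem_range_self (f := t) x
      simpa only [app, hx] using k B hB e he⟩
    refine ⟨X, inferInstance, t, a3, a5, e, ∑ i, q i,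
      sum_mem fun i _ => AddSubmonoid.subset_closure (b1 i), ?_⟩
    rw [← e, d2 sX sR t D' a1 a2 a3 a4 a5 a6 a7 a8, ← b2]
    ring
  obtain ⟨r0, ⟨r1, L0, l0, r2⟩, r3⟩ := (gnc_pwo.mono (s := {r | r ∈ AddSubmonoid.closure
      {r : ℝ | r = 1 / 2 ∨ ∃ k : ℕ, 3 ≤ k ∧ r = 1 / 2 - 1 / k} ∧ ∃ L, 1 ≤ L ∧ kd (K L) =
        wsum (fun d : ND G Γ o D => {w : orbit Γ o | G.dist w d.1.fst ≤ D}) (bp Γ o) 1 - m * r})
      fun _ k => k.1).exists_minimal
    (let ⟨_, _, _, _, _, _, r, k, k'⟩ := dat 1 le_rfl; ⟨r, k, 1, le_rfl, k'⟩)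
  have st : ∀ L, L0 ≤ L → K L ⊆ K L0 := fun L hL => by
    obtain ⟨X, _, t, a1, a2, a3, -⟩ := dat L0 l0
    obtain ⟨X', _, t', b1, b2, b3, r, b4, b5⟩ := dat L (l0.trans hL)
    have := d1 t t' a1 b1 a2 b2
    rw [a3, b3] at this
    refine (this fun c hc => ⟨hc.1, fun B hB e he =>
      gnc_up (E := ND G Γ o D) l0 hL (hc.2 B hB) he (fn L B hB e he)⟩).2 ?_
    have : r0 ≤ r := (le_total r0 r).elim id (r3 ⟨b4, L, l0.trans hL, b5⟩)
    rw [r2, b5]
    nlinarith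
  have hUM : U ∈ M := ⟨1, one_mem _, Or.inl rfl⟩
  have uv : (u, v) ∈ cb G L0 U :=
    ⟨Set.mem_iUnion.2 ⟨0, (h.mem 0).2.1⟩, h.notMem, (dist_adj h.adj).le.trans l0⟩
  have f0 := fn L0 U hUM _ uv
  obtain ⟨⟨x, y⟩, xy, xy'⟩ := h.gncInf.exists_notMem_finite f0
  obtain ⟨j, hj⟩ := h.gncIdx ((f0.image Prod.fst).insert x)
  have hx : x ∈ A j := hj x (Or.inl rfl) xy.1
  have hy : y ∉ A j := fun k => xy.2.1 (Set.mem_iUnion.2 ⟨j, k⟩)
  have yx : G.Adj y x := (dist_eq_one_iff_adj.1 (le_antisymm xy.2.2 (Nat.pos_of_ne_zero fun k =>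
    hy ((eq_of_dist k : x = y) ▸ hx)))).symm
  obtain ⟨W1, w1⟩ := (h.eff _ (h.mem j).1).2.2 v (h.mem j).2.2 y hy
  obtain ⟨W2, w2⟩ := (h.eff _ (h.mem j).1).2.1 x hx u (h.mem j).2.1
  let W : G.Walk u u := Walk.cons h.adj (W1.append (Walk.cons yx W2))
  obtain ⟨c, c1, c2⟩ := gnc_list (ND G Γ o D) W.darts
  have off : ∀ L, ∀ B ∈ M, ∀ e ∈ cb G L B, ∀ d, d ∉ (ND G Γ o D : Set G.Dart) →
      sg G (trk G L B e) d = 0 := fun L B hB e he d hd => by
    have t1 : d.toProd ∉ trk G L B e := fun k => hd (nr B hB _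
      ⟨(scatter_sub he k).1, (scatter_sub he k).2.1, (dist_adj d.adj).le⟩)
    have t2 : d.toProd.swap ∉ trk G L B e := fun k => hd (nr _ (hM.compl B hB) d.toProd
      ⟨(scatter_sub he k).2.1, not_not.2 (scatter_sub he k).1, (dist_adj d.adj).le⟩)
    simp [sg, t1, t2]
  have c3 : c ∈ K (max W.length L0) := ⟨summable_of_hasFiniteSupport (c1.subset fun d hd k =>
    hd (by simp [k])), fun B hB e he => (c2 _ (off _ B hB e he)).trans
      ((gnc_walk (M := M) ⟨hB, e, he, rfl⟩ W (le_max_left _ _)).trans (sub_self _))⟩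
  have c4 := (c2 _ (off _ U hUM _ uv)).symm.trans ((st _ (le_max_right _ _) c3).2 U hUM _ uv)
  have z1 := gnc_zero (τ := trk G L0 U (u, v)) (fun p hp k =>
    absurd (hj _ (Or.inr ⟨p, hp, rfl⟩) (scatter_sub uv hp).1) k) W1 w1
  have z2 := gnc_zero (τ := trk G L0 U (u, v)) (fun p hp _ k =>
    (scatter_sub uv hp).2.1 (Set.mem_iUnion.2 ⟨j, k⟩)) W2 w2
  have n1 : (v, u) ∉ trk G L0 U (u, v) := fun k => h.notMem (scatter_sub uv k).1
  have n2 : (y, x) ∉ trk G L0 U (u, v) := fun k => xy.2.1 (scatter_sub uv k).1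
  simp [W, Walk.darts_append, z1, z2, sg, n1, n2, xy', scatter_self] at c4

end Pool.Agent.MP_77f003_co.H49
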